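import Pool.Agent.W732.Cor.Stm2

set_option autoImplicit false

/-!
Project COR: the automorphisms `mv p a` of the ball (helper721).
-/

open Metric Set Filter Topology Complex

namespace Pool.Agent.W721.Cor.Mv

open Pool.Agent.W732.Cor

variable {m : ℕ}

theorem lemA (a x : ℂ) : ‖1 + starRingEnd ℂ a * x‖ ^ 2 - ‖x + a‖ ^ 2 =
    (1 - ‖a‖ ^ 2) * (1 - ‖x‖ ^ 2) := by
  simp only [Complex.sq_norm, Complex.normSq_apply, Complex.add_re, Complex.add_im,
    Complex.mul_re, Complex.mul_im, Complex.conj_re, Complex.conj_im, Complex.one_re,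
    Complex.one_im]
  ring

theorem inner_pp {p : V m} (hp : ‖p‖ = 1) : (inner ℂ p p : ℂ) = 1 := by
  rw [inner_self_eq_norm_sq_to_K, hp]; simp

theorem inner_perp {p : V m} (hp : ‖p‖ = 1) (z : V m) :
    (inner ℂ p (z - (inner ℂ p z : ℂ) • p) : ℂ) = 0 := by
  rw [inner_sub_right, inner_smul_right, inner_pp hp]; ring

theorem norm_comb {p y : V m} (hp : ‖p‖ = 1) (hy : (inner ℂ p y : ℂ) = 0) (c d : ℂ) :
    ‖c • p + d • y‖ ^ 2 = ‖c‖ ^ 2 + ‖d‖ ^ 2 * ‖y‖ ^ 2 := by
  have h := norm_add_sq_eq_norm_sq_add_norm_sq_of_inner_eq_zero (𝕜 := ℂ) (c • p) (d • y) (by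
    rw [inner_smul_left, inner_smul_right, hy]; ring)
  rw [norm_smul, norm_smul, hp] at h
  rw [sq]
  linarith [h]

theorem norm_dec {p : V m} (hp : ‖p‖ = 1) (z : V m) :
    ‖z‖ ^ 2 = ‖(inner ℂ p z : ℂ)‖ ^ 2 + ‖z - (inner ℂ p z : ℂ) • p‖ ^ 2 := by
  have h := norm_comb hp (inner_perp hp z) (inner ℂ p z) 1
  simpa using h

theorem inner_lt {p z : V m} (hp : ‖p‖ = 1) (hz : z ∈ ball (0 : V m) 1) :
    ‖(inner ℂ p z : ℂ)‖ < 1 := by
  rw [mem_ball_zero_iff] at hz
  have h := norm_dec hp z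
  have h1 : ‖(inner ℂ p z : ℂ)‖ ^ 2 < 1 := by
    nlinarith [norm_nonneg z, sq_nonneg (‖z - (inner ℂ p z : ℂ) • p‖)]
  nlinarith [norm_nonneg (inner ℂ p z : ℂ)]

theorem den_ne {a x : ℂ} (ha : ‖a‖ < 1) (hx : ‖x‖ < 1) : 1 + starRingEnd ℂ a * x ≠ 0 := by
  intro h
  have h1 : starRingEnd ℂ a * x = -1 := by linear_combination h
  have h2 : ‖starRingEnd ℂ a * x‖ = 1 := by rw [h1]; simp
  rw [norm_mul, RCLike.norm_conj] at h2
  nlinarith [norm_nonneg a, norm_nonneg x]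

theorem inner_mv {p : V m} (hp : ‖p‖ = 1) (a : ℂ) (z : V m) :
    (inner ℂ p (mv p a z) : ℂ) =
      ((inner ℂ p z : ℂ) + a) / (1 + starRingEnd ℂ a * inner ℂ p z) := by
  rw [mv, inner_smul_right, inner_add_right, inner_smul_right, inner_smul_right, inner_pp hp,
    inner_perp hp]
  ring

theorem perp_mv {p : V m} (hp : ‖p‖ = 1) (a : ℂ) (z : V m) :
    mv p a z - (inner ℂ p (mv p a z) : ℂ) • p =
      (((√(1 - ‖a‖ ^ 2) : ℝ) : ℂ) / (1 + starRingEnd ℂ a * inner ℂ p z)) •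
        (z - (inner ℂ p z : ℂ) • p) := by
  rw [inner_mv hp, mv]
  module

theorem perp_tau {p : V m} (hp : ‖p‖ = 1) (t : ℝ) (z : V m) :
    (inner ℂ p (tau p t z) : ℂ) = inner ℂ p z := by
  rw [tau, inner_add_right, inner_smul_right, inner_smul_right, inner_pp hp, inner_perp hp]
  ring

theorem main : S_mv := by
  intro m p hp a ha
  rw [mem_ball_zero_iff] at ha
  have ha2 : 0 < 1 - ‖a‖ ^ 2 := by nlinarith [norm_nonneg a]
  have hs : ((√(1 - ‖a‖ ^ 2) : ℝ) : ℂ) * ((√(1 - ‖a‖ ^ 2) : ℝ) : ℂ) =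
      1 - starRingEnd ℂ a * a := by
    rw [← Complex.ofReal_mul, Real.mul_self_sqrt ha2.le, mul_comm (starRingEnd ℂ a),
      Complex.mul_conj, Complex.normSq_eq_norm_sq]
    push_cast
    rfl
  refine ⟨?_, ?_, ?_, ?_, ?_⟩
  · have hin : Differentiable ℂ (fun z : V m => (inner ℂ p z : ℂ)) :=
      (innerSL ℂ p).differentiable
    have h1 : DifferentiableOn ℂ (fun z : V m => 1 / (1 + starRingEnd ℂ a * inner ℂ p z))
        (ball 0 1) := by
      have h0' : DifferentiableOn ℂ (fun z : V m => 1 + starRingEnd ℂ a * inner ℂ p z)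
          (ball 0 1) := ((hin.const_mul _).const_add _).differentiableOn
      have h0i := h0'.inv fun z hz => den_ne ha (inner_lt hp hz)
      simp only [one_div]
      exact h0i
    have h2 : Differentiable ℂ (fun z : V m => ((inner ℂ p z : ℂ) + a) • p +
        ((√(1 - ‖a‖ ^ 2) : ℝ) : ℂ) • (z - (inner ℂ p z : ℂ) • p)) := by
      have e1 : Differentiable ℂ (fun z : V m => ((inner ℂ p z : ℂ) + a) • p) :=
        (hin.add_const a).smul_const p
      have e2 : Differentiable ℂ (fun z : V m => z - (inner ℂ p z : ℂ) • p) :=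
        differentiable_fun_id.sub (hin.smul_const p)
      exact e1.add (e2.const_smul (((√(1 - ‖a‖ ^ 2) : ℝ) : ℂ)))
    exact h1.smul h2.differentiableOn
  · intro z hz
    have hx := inner_lt hp hz
    have hden := den_ne ha hx
    rw [mem_ball_zero_iff] at hz ⊢
    have h1 := norm_dec hp z
    have h2 := norm_dec hp (mv p a z)
    rw [perp_mv hp, inner_mv hp, norm_smul, norm_div, norm_div, mul_pow, div_pow, div_pow] at h2
    have hD : 0 < ‖1 + starRingEnd ℂ a * inner ℂ p z‖ ^ 2 := by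
      have := norm_pos_iff.mpr hden
      positivity
    have h3 := lemA a (inner ℂ p z)
    have h4 : ‖((√(1 - ‖a‖ ^ 2) : ℝ) : ℂ)‖ ^ 2 = 1 - ‖a‖ ^ 2 := by
      rw [Complex.norm_real, Real.norm_eq_abs, sq_abs, Real.sq_sqrt ha2.le]
    rw [h4] at h2
    have h5 : ‖mv p a z‖ ^ 2 < 1 := by
      have h6 : ‖mv p a z‖ ^ 2 * ‖1 + starRingEnd ℂ a * inner ℂ p z‖ ^ 2 =
          ‖(inner ℂ p z : ℂ) + a‖ ^ 2 + (1 - ‖a‖ ^ 2) * ‖z - (inner ℂ p z : ℂ) • p‖ ^ 2 := by
        rw [h2, add_mul, div_mul_cancel₀ _ hD.ne', mul_right_comm, div_mul_cancel₀ _ hD.ne']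
      have h7 : ‖z‖ ^ 2 < 1 := by nlinarith [norm_nonneg z]
      have h8 : ‖mv p a z‖ ^ 2 * ‖1 + starRingEnd ℂ a * inner ℂ p z‖ ^ 2 <
          1 * ‖1 + starRingEnd ℂ a * inner ℂ p z‖ ^ 2 := by
        rw [h6]
        have h9 : (1 - ‖a‖ ^ 2) * ‖z‖ ^ 2 < (1 - ‖a‖ ^ 2) * 1 :=
          mul_lt_mul_of_pos_left h7 ha2
        rw [h1] at h9
        nlinarith
      exact lt_of_mul_lt_mul_right h8 hD.le
    nlinarith [norm_nonneg (mv p a z)]
  · intro z hz
    have hx := inner_lt hp hz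
    have hden := den_ne ha hx
    conv_lhs => rw [mv, perp_mv hp, inner_mv hp]
    simp only [map_neg, norm_neg]
    set x : ℂ := inner ℂ p z with hxdef
    set s : ℂ := ((√(1 - ‖a‖ ^ 2) : ℝ) : ℂ) with hsdef
    set c : ℂ := starRingEnd ℂ a with hc
    have hca : 1 - c * a ≠ 0 := by
      rw [← hs]
      have : 0 < √(1 - ‖a‖ ^ 2) := Real.sqrt_pos.mpr ha2
      rw [hsdef]
      exact_mod_cast (mul_pos this this).ne'
    have h1 : 1 + -c * ((x + a) / (1 + c * x)) = (1 - c * a) / (1 + c * x) := by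
      field_simp
      ring
    have h2 : (x + a) / (1 + c * x) + -a = x * (1 - c * a) / (1 + c * x) := by
      rw [eq_div_iff hden, add_mul, div_mul_cancel₀ _ hden]
      ring
    rw [h1, h2, smul_smul, smul_add, smul_smul, smul_smul]
    have h3 : 1 / ((1 - c * a) / (1 + c * x)) * (x * (1 - c * a) / (1 + c * x)) = x := by
      field_simp
    have h4 : 1 / ((1 - c * a) / (1 + c * x)) * (s * (s / (1 + c * x))) = 1 := by
      rw [show s * (s / (1 + c * x)) = (s * s) / (1 + c * x) by ring, hs]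
      field_simp
    rw [h3, h4]
    module
  · intro z _
    exact inner_mv hp a z
  · intro t _ _ z _
    have h1 := perp_tau hp t z
    have h2 : tau p t z - (inner ℂ p (tau p t z) : ℂ) • p =
        (t : ℂ) • (z - (inner ℂ p z : ℂ) • p) := by
      rw [h1, tau]; module
    rw [mv, h2, h1]
    conv_rhs => rw [tau, perp_mv hp, inner_mv hp]
    module

end Pool.Agent.W721.Cor.Mv
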