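import Pool.Agent.W721.Cor.Mv

set_option autoImplicit false

/-!
Project COR: scaled continuity of functions of one variable, of sums and products (helper721).
-/

open Metric Set Filter Topology Complex

namespace Pool.Agent.W721.Cor.Sc

open Pool.Agent.W732.Cor Pool.Agent.W721.Cor.Mv

theorem moeb_mem {a x : ℂ} (ha : ‖a‖ < 1) (hx : ‖x‖ < 1) :
    ‖(x + a) / (1 + starRingEnd ℂ a * x)‖ < 1 := by
  have h1 := lemA a x
  have h2 : 0 < (1 - ‖a‖ ^ 2) * (1 - ‖x‖ ^ 2) := by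
    apply mul_pos <;> nlinarith [norm_nonneg a, norm_nonneg x]
  have h3 : 0 < ‖1 + starRingEnd ℂ a * x‖ := norm_pos_iff.mpr (den_ne ha hx)
  rw [norm_div, div_lt_one h3]
  nlinarith [norm_nonneg (x + a)]

theorem sc1 : S_sc1 := by
  intro m p hp h hd hb
  obtain ⟨M, hM⟩ := hb
  have hM0 : 0 ≤ M := (norm_nonneg _).trans (hM 0 (by simp))
  intro q hq hpq ε hε
  refine ⟨min (ε / (2 * (2 * M + 1))) 1, by positivity, ?_⟩
  intro a ha z hz w hw hzq hwq
  rw [mem_ball_zero_iff] at ha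
  let k : ℂ → ℂ := fun x => h ((x + a) / (1 + starRingEnd ℂ a * x))
  have hmaps : MapsTo (fun x : ℂ => (x + a) / (1 + starRingEnd ℂ a * x)) (ball 0 1) (ball 0 1) := by
    intro x hx
    rw [mem_ball_zero_iff] at hx ⊢
    exact moeb_mem ha hx
  have hk : DifferentiableOn ℂ k (ball 0 1) := by
    refine hd.comp ?_ hmaps
    have e1 : DifferentiableOn ℂ (fun x : ℂ => x + a) (ball 0 1) :=
      differentiableOn_id.add_const a
    have e2 : DifferentiableOn ℂ (fun x : ℂ => 1 + starRingEnd ℂ a * x) (ball 0 1) :=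
      (differentiableOn_id.const_mul _).const_add _
    exact e1.div e2 fun x hx => den_ne ha (by rwa [mem_ball_zero_iff] at hx)
  have hkb : MapsTo k (ball 0 1) (ball (k 0) (2 * M + 1)) := by
    intro x hx
    rw [mem_ball, dist_eq_norm]
    have h1 : ‖k x‖ ≤ M := hM _ (hmaps hx)
    have h2 : ‖k 0‖ ≤ M := hM _ (hmaps (by simp))
    have h3 := norm_sub_le (k x) (k 0)
    linarith
  have key : ∀ v ∈ ball (0 : V m) 1, ‖v - q‖ < min (ε / (2 * (2 * M + 1))) 1 →
      ‖h (inner ℂ p (mv p a v)) - k 0‖ ≤ ε / 2 := by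
    intro v hv hvq
    have h1 : ‖(inner ℂ p v : ℂ)‖ ≤ ‖v - q‖ := by
      have e1 : (inner ℂ p v : ℂ) = inner ℂ p (v - q) := by
        rw [inner_sub_right, hpq, sub_zero]
      rw [e1]
      refine (norm_inner_le_norm p (v - q)).trans ?_
      rw [hp, one_mul]
    have h2 : (inner ℂ p v : ℂ) ∈ ball (0 : ℂ) 1 := by
      rw [mem_ball_zero_iff]; exact inner_lt hp hv
    have h3 := Complex.dist_le_div_mul_dist_of_mapsTo_ball hk
      (hkb.mono_right ball_subset_closedBall) h2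
    rw [inner_mv hp, ← dist_eq_norm]
    refine h3.trans ?_
    rw [dist_zero_right, div_one]
    have h4 : ‖(inner ℂ p v : ℂ)‖ ≤ ε / (2 * (2 * M + 1)) :=
      h1.trans (hvq.le.trans (min_le_left _ _))
    calc (2 * M + 1) * ‖(inner ℂ p v : ℂ)‖ ≤ (2 * M + 1) * (ε / (2 * (2 * M + 1))) :=
          mul_le_mul_of_nonneg_left h4 (by positivity)
      _ = ε / 2 := by field_simp
  have k1 := key z hz hzq
  have k2 := key w hw hwq
  change ‖h (inner ℂ p (mv p a z)) - h (inner ℂ p (mv p a w))‖ ≤ ε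
  calc ‖h (inner ℂ p (mv p a z)) - h (inner ℂ p (mv p a w))‖
      = ‖(h (inner ℂ p (mv p a z)) - k 0) - (h (inner ℂ p (mv p a w)) - k 0)‖ := by
        congr 1; ring
    _ ≤ ‖h (inner ℂ p (mv p a z)) - k 0‖ + ‖h (inner ℂ p (mv p a w)) - k 0‖ := norm_sub_le _ _
    _ ≤ ε := by linarith

theorem sc3 (hmv : S_mv) : S_sc3 := by
  intro m p hp f g hf hg hfb hgb
  obtain ⟨Mf, hMf⟩ := hfb
  obtain ⟨Mg, hMg⟩ := hgb
  have hMf0 : 0 ≤ Mf := (norm_nonneg _).trans (hMf 0 (by simp))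
  have hMg0 : 0 ≤ Mg := (norm_nonneg _).trans (hMg 0 (by simp))
  refine ⟨?_, ?_, ?_⟩
  · intro q hq hpq ε hε
    obtain ⟨r1, hr1, h1⟩ := hf q hq hpq (ε / 2) (by positivity)
    obtain ⟨r2, hr2, h2⟩ := hg q hq hpq (ε / 2) (by positivity)
    refine ⟨min r1 r2, lt_min hr1 hr2, ?_⟩
    intro a ha z hz w hw hzq hwq
    have e1 := h1 a ha z hz w hw (lt_of_lt_of_le hzq (min_le_left _ _))
      (lt_of_lt_of_le hwq (min_le_left _ _))
    have e2 := h2 a ha z hz w hw (lt_of_lt_of_le hzq (min_le_right _ _))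
      (lt_of_lt_of_le hwq (min_le_right _ _))
    change ‖(f (mv p a z) + g (mv p a z)) - (f (mv p a w) + g (mv p a w))‖ ≤ ε
    calc ‖(f (mv p a z) + g (mv p a z)) - (f (mv p a w) + g (mv p a w))‖
        = ‖(f (mv p a z) - f (mv p a w)) + (g (mv p a z) - g (mv p a w))‖ := by
          congr 1; ring
      _ ≤ ‖f (mv p a z) - f (mv p a w)‖ + ‖g (mv p a z) - g (mv p a w)‖ := norm_add_le _ _
      _ ≤ ε := by linarith
  · intro q hq hpq ε hε
    have hpos : 0 < ε / (Mf + Mg + 1) := by positivity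
    obtain ⟨r1, hr1, h1⟩ := hf q hq hpq _ hpos
    obtain ⟨r2, hr2, h2⟩ := hg q hq hpq _ hpos
    refine ⟨min r1 r2, lt_min hr1 hr2, ?_⟩
    intro a ha z hz w hw hzq hwq
    obtain ⟨_, mp, _⟩ := hmv m p hp a ha
    have e1 := h1 a ha z hz w hw (lt_of_lt_of_le hzq (min_le_left _ _))
      (lt_of_lt_of_le hwq (min_le_left _ _))
    have e2 := h2 a ha z hz w hw (lt_of_lt_of_le hzq (min_le_right _ _))
      (lt_of_lt_of_le hwq (min_le_right _ _))
    have b1 := hMf _ (mp hz)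
    have b2 := hMg _ (mp hw)
    change ‖(f (mv p a z) * g (mv p a z)) - (f (mv p a w) * g (mv p a w))‖ ≤ ε
    calc ‖(f (mv p a z) * g (mv p a z)) - (f (mv p a w) * g (mv p a w))‖
        = ‖f (mv p a z) * (g (mv p a z) - g (mv p a w)) +
            (f (mv p a z) - f (mv p a w)) * g (mv p a w)‖ := by
          congr 1; ring
      _ ≤ ‖f (mv p a z)‖ * ‖g (mv p a z) - g (mv p a w)‖ +
            ‖f (mv p a z) - f (mv p a w)‖ * ‖g (mv p a w)‖ := by
          refine (norm_add_le _ _).trans ?_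
          rw [norm_mul, norm_mul]
      _ ≤ Mf * (ε / (Mf + Mg + 1)) + (ε / (Mf + Mg + 1)) * Mg := by
          refine add_le_add ?_ ?_
          · exact mul_le_mul b1 e2 (norm_nonneg _) hMf0
          · exact mul_le_mul e1 b2 (norm_nonneg _) hpos.le
      _ = ε * ((Mf + Mg) / (Mf + Mg + 1)) := by ring
      _ ≤ ε := by
          have : (Mf + Mg) / (Mf + Mg + 1) ≤ 1 := by
            rw [div_le_one (by positivity)]; linarith
          nlinarith
  · intro c q hq hpq ε hε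
    refine ⟨1, one_pos, ?_⟩
    intro a ha z hz w hw _ _
    simpa using hε.le

theorem main : S_mv → S_sc1 ∧ S_sc3 := fun hmv => ⟨sc1, sc3 hmv⟩

end Pool.Agent.W721.Cor.Sc
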