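import Pool.Agent.W721.Cor.Mv

set_option autoImplicit false

/-!
Project COR: scaled continuity of `H ∘ tau p t` (helper721).
-/

open Metric Set Filter Topology Complex

namespace Pool.Agent.W721.Cor.Sc2

open Pool.Agent.W732.Cor Pool.Agent.W721.Cor.Mv

theorem lip {m : ℕ} {K : V m → ℂ} (hd : DifferentiableOn ℂ K (ball 0 1))
    (hb : ∀ z ∈ ball (0 : V m) 1, ‖K z‖ ≤ 1) {s : ℝ} (hs : s < 1) {z w : V m} (hw : ‖w‖ ≤ s)
    (hzw : ‖z - w‖ < 1 - s) : ‖K z - K w‖ ≤ 2 / (1 - s) * ‖z - w‖ := by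
  rcases eq_or_ne z w with h0 | h0
  · rw [h0]; simp
  have hn : 0 < ‖z - w‖ := norm_pos_iff.mpr (sub_ne_zero.mpr h0)
  have hs1 : 0 < 1 - s := by linarith
  set R : ℝ := (1 - s) / ‖z - w‖ with hR
  have hR1 : 1 < R := by rw [hR, one_lt_div hn]; exact hzw
  have hmaps : MapsTo (fun l : ℂ => w + l • (z - w)) (ball 0 R) (ball (0 : V m) 1) := by
    intro l hl
    rw [mem_ball_zero_iff] at hl ⊢
    have h1 : ‖l‖ * ‖z - w‖ < 1 - s := by rwa [hR, lt_div_iff₀ hn] at hl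
    have h2 : ‖w + l • (z - w)‖ ≤ ‖w‖ + ‖l‖ * ‖z - w‖ := by
      refine (norm_add_le _ _).trans ?_
      rw [norm_smul]
    change ‖w + l • (z - w)‖ < 1
    linarith
  have hφ : DifferentiableOn ℂ (fun l : ℂ => K (w + l • (z - w))) (ball 0 R) := by
    have e1 : Differentiable ℂ (fun l : ℂ => w + l • (z - w)) :=
      (differentiable_fun_id.smul_const (z - w)).const_add w
    exact hd.comp e1.differentiableOn hmaps
  have hφb : MapsTo (fun l : ℂ => K (w + l • (z - w))) (ball 0 R)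
      (closedBall ((fun l : ℂ => K (w + l • (z - w))) 0) 2) := by
    intro l hl
    rw [mem_closedBall, dist_eq_norm]
    have h1 : ‖K (w + l • (z - w))‖ ≤ 1 := hb _ (hmaps hl)
    have h2 : ‖K (w + (0 : ℂ) • (z - w))‖ ≤ 1 := hb _ (hmaps (by
      rw [mem_ball_zero_iff, norm_zero]; linarith))
    refine (norm_sub_le _ _).trans ?_
    linarith
  have h3 := Complex.dist_le_div_mul_dist_of_mapsTo_ball hφ hφb (z := 1)
    (by rw [mem_ball_zero_iff, norm_one]; exact hR1)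
  simp only [one_smul, zero_smul, add_zero, add_sub_cancel, dist_zero_right, norm_one,
    mul_one] at h3
  rw [dist_eq_norm] at h3
  refine h3.trans (le_of_eq ?_)
  rw [hR]
  field_simp

theorem tau_sub {m : ℕ} (p : V m) (t : ℝ) (z w : V m) :
    tau p t z - tau p t w = tau p t (z - w) := by
  simp only [tau, inner_sub_right]
  module

theorem norm_tau {m : ℕ} {p : V m} (hp : ‖p‖ = 1) (t : ℝ) (z : V m) :
    ‖tau p t z‖ ^ 2 = ‖(inner ℂ p z : ℂ)‖ ^ 2 + t ^ 2 * ‖z - (inner ℂ p z : ℂ) • p‖ ^ 2 := by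
  rw [tau, norm_comb hp (inner_perp hp z), Complex.norm_real, Real.norm_eq_abs, sq_abs]

theorem main : S_mv → S_sc2 := by
  intro hmv m p hp t ht0 ht1 ε hε
  have hρ : 0 < (1 - t) / 2 := by linarith
  set ρ := (1 - t) / 2 with hρdef
  refine ⟨min (ρ / 2) (ε * ρ / 4), by positivity, ?_⟩
  intro H hH hHb q hq hpq a ha z hz w hw hzq hwq
  obtain ⟨d1, m1, _, _, t1⟩ := hmv m p hp a ha
  rw [← t1 t ht0 ht1.le z hz, ← t1 t ht0 ht1.le w hw]
  have hcontr : ∀ v : V m, ‖tau p t v‖ ≤ ‖v‖ := by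
    intro v
    have h1 := norm_tau hp t v
    have h2 := norm_dec hp v
    have h3 : t ^ 2 ≤ 1 := by nlinarith
    have h4 : ‖tau p t v‖ ^ 2 ≤ ‖v‖ ^ 2 := by
      rw [h1, h2]
      nlinarith [sq_nonneg ‖v - (inner ℂ p v : ℂ) • p‖]
    exact le_of_sq_le_sq h4 (norm_nonneg _)
  have hzw : ‖tau p t z - tau p t w‖ < 2 * min (ρ / 2) (ε * ρ / 4) := by
    rw [tau_sub]
    refine lt_of_le_of_lt (hcontr _) ?_
    calc ‖z - w‖ = ‖(z - q) - (w - q)‖ := by congr 1; abel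
      _ ≤ ‖z - q‖ + ‖w - q‖ := norm_sub_le _ _
      _ < 2 * min (ρ / 2) (ε * ρ / 4) := by linarith
  have hws : ‖tau p t w‖ ≤ (1 + t) / 2 := by
    have h1 := norm_tau hp t w
    have h2 := norm_dec hp w
    rw [mem_ball_zero_iff] at hw
    have h3 : ‖(inner ℂ p w : ℂ)‖ ≤ ρ / 2 := by
      have e1 : (inner ℂ p w : ℂ) = inner ℂ p (w - q) := by
        rw [inner_sub_right, hpq, sub_zero]
      rw [e1]
      refine (norm_inner_le_norm p (w - q)).trans ?_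
      rw [hp, one_mul]
      exact hwq.le.trans (min_le_left _ _)
    have h4 : ‖w - (inner ℂ p w : ℂ) • p‖ ^ 2 ≤ 1 := by
      nlinarith [norm_nonneg w, sq_nonneg ‖(inner ℂ p w : ℂ)‖]
    have h5 : ‖tau p t w‖ ^ 2 ≤ ((1 + t) / 2) ^ 2 := by
      rw [h1]
      have e1 : ‖(inner ℂ p w : ℂ)‖ ^ 2 ≤ (ρ / 2) ^ 2 :=
        pow_le_pow_left₀ (norm_nonneg _) h3 2
      have e2 : t ^ 2 * ‖w - (inner ℂ p w : ℂ) • p‖ ^ 2 ≤ t ^ 2 * 1 :=
        mul_le_mul_of_nonneg_left h4 (sq_nonneg _)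
      rw [hρdef] at e1
      nlinarith
    exact le_of_sq_le_sq h5 (by linarith)
  have hs : (1 + t) / 2 < 1 := by linarith
  have h1s : 1 - (1 + t) / 2 = ρ := by rw [hρdef]; ring
  have hK : DifferentiableOn ℂ (H ∘ mv p a) (ball 0 1) := hH.comp d1 m1
  have hKb : ∀ z ∈ ball (0 : V m) 1, ‖(H ∘ mv p a) z‖ ≤ 1 := fun z hz => hHb _ (m1 hz)
  have h6 := lip hK hKb hs hws (z := tau p t z) (by
    rw [h1s]
    have := min_le_left (ρ / 2) (ε * ρ / 4)
    linarith)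
  rw [h1s] at h6
  refine h6.trans ?_
  have h7 : ‖tau p t z - tau p t w‖ ≤ ε * ρ / 2 := by
    have := min_le_right (ρ / 2) (ε * ρ / 4)
    linarith
  calc 2 / ρ * ‖tau p t z - tau p t w‖ ≤ 2 / ρ * (ε * ρ / 2) :=
        mul_le_mul_of_nonneg_left h7 (by positivity)
    _ = ε := by field_simp

end Pool.Agent.W721.Cor.Sc2
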