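import Pool.Agent.W732.Cor.Stm2

set_option autoImplicit false

/-!
Project COR: the uniform theorem from the local one and slice localisation (helper721).
-/

open Metric Set Filter Topology Complex

namespace Pool.Agent.W721.Cor.Uni

open Pool.Agent.W732.Cor

theorem main : S_mv → S_loc → S_ball → S_uni := by
  intro hmv hloc hball m p hp N δ hδ r hr
  obtain ⟨C1, hC1⟩ := hloc m p hp N δ hδ r hr
  obtain ⟨C', hC'⟩ := hball (N + 1) C1
  refine ⟨C', ?_⟩
  intro F G hF hG hFb hGb hcor hcont
  obtain ⟨h, hh1, hh2, hh3⟩ := hC' m p hp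
    (Fin.cons (α := fun _ => V m → ℂ) G F)
    (by
      intro i
      refine Fin.cases ?_ (fun i => ?_) i
      · simpa using hG
      · simpa using hF i)
    (by
      intro i
      refine Fin.cases ?_ (fun i => ?_) i
      · simpa using hGb
      · simpa using hFb i)
    (by
      intro a ha
      obtain ⟨d1, m1, i1, _, _⟩ := hmv m p hp a ha
      have ha' : -a ∈ ball (0 : ℂ) 1 := by simpa using ha
      obtain ⟨d2, m2, i2, e2, _⟩ := hmv m p hp (-a) ha'
      have hback : ∀ z ∈ ball (0 : V m) 1, mv p a (mv p (-a) z) = z := by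
        intro z hz
        have := i2 z hz
        rwa [neg_neg] at this
      obtain ⟨g, g0, g1, hg, hg0, hg1, bg, bg0, bg1, hsum⟩ := hC1
        (fun i => F i ∘ mv p a) (G ∘ mv p a)
        (fun i => (hF i).comp d1 m1) (hG.comp d1 m1)
        (fun i z hz => hFb i _ (m1 hz)) (fun z hz => hGb _ (m1 hz))
        (fun z hz => hcor _ (m1 hz))
        (fun i q hq hpq ε hε z hz w hw hzq hwq => hcont i q hq hpq ε hε a ha z hz w hw hzq hwq)
      refine ⟨Fin.cons (α := fun _ => V m → ℂ) (g0 ∘ mv p (-a)) (fun i => g i ∘ mv p (-a)),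
        g1 ∘ mv p (-a), ?_, hg1.comp d2 m2, ?_, fun z hz => bg1 _ (m2 hz), ?_⟩
      · intro i
        refine Fin.cases ?_ (fun i => ?_) i
        · simpa using hg0.comp d2 m2
        · simpa using (hg i).comp d2 m2
      · intro i
        refine Fin.cases ?_ (fun i => ?_) i
        · intro z hz
          simpa using bg0 _ (m2 hz)
        · intro z hz
          simpa using bg i _ (m2 hz)
      · intro z hz
        have h1 := hsum _ (m2 hz)
        have h2 := e2 z hz
        rw [h2] at h1
        simp only [Function.comp_apply, hback z hz] at h1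
        rw [Fin.sum_univ_succ]
        simp only [Fin.cons_zero, Fin.cons_succ, Function.comp_apply]
        rw [map_neg, neg_mul, ← sub_eq_add_neg, ← sub_eq_add_neg] at h1
        linear_combination h1)
  refine ⟨fun i => h i.succ, h 0, fun i => hh1 _, hh1 0, fun i => hh2 _, hh2 0, ?_⟩
  intro z hz
  have h1 := hh3 z hz
  rw [Fin.sum_univ_succ] at h1
  simp only [Fin.cons_zero, Fin.cons_succ] at h1
  linear_combination h1

end Pool.Agent.W721.Cor.Uni
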